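import Pool.Agent.helper82.CH.SpecA

/-!
# ch:CID: the convolution identity
-/

set_option autoImplicit false

open NumberField Complex Pool.Agent.UN

namespace Pool.Agent.CH

section

variable {F : Type} [Field F] [NumberField F]

theorem CID_idl (n : ℕ) (a : Ideal (𝓞 F)) : a ∈ idl F n ↔ Ideal.absNorm a = n := by
  unfold idl
  rw [Set.Finite.mem_toFinset]
  rfl

open Classical in
/-- the divisors of an ideal -/
noncomputable def CID_Dv (a : Ideal (𝓞 F)) : Finset (Ideal (𝓞 F)) :=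
  ((Finset.range (Ideal.absNorm a + 1)).biUnion (idl F)).filter fun b => b ∣ a

theorem CID_mem {a : Ideal (𝓞 F)} (ha : a ≠ ⊥) (b : Ideal (𝓞 F)) : b ∈ CID_Dv a ↔ b ∣ a := by
  simp only [CID_Dv, Finset.mem_filter, Finset.mem_biUnion]
  refine ⟨fun h => h.2, fun h => ⟨⟨Ideal.absNorm b, ?_, (CID_idl _ _).2 rfl⟩, h⟩⟩
  rw [Finset.mem_range, Nat.lt_succ_iff]
  refine Nat.le_of_dvd ?_ (map_dvd Ideal.absNorm h)
  refine Nat.pos_of_ne_zero fun h0 => ha ?_
  exact Ideal.absNorm_eq_zero_iff.1 h0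

theorem CID_Lam (P : Ideal (𝓞 F)) (hP : Prime P) (k : ℕ) : Lam (P ^ (k + 1)) = Real.log (Ideal.absNorm P) := by
  unfold Lam
  have h1 : IsPrimePow (P ^ (k + 1)) := ⟨P, k + 1, hP, Nat.succ_pos k, rfl⟩
  rw [if_pos h1, Ideal.radical_pow _ (Nat.succ_ne_zero k), (Ideal.isPrime_of_prime hP).radical]

theorem CID_step (P a : Ideal (𝓞 F)) (hP : Prime P) (ha : a ≠ ⊥) :
    ∑ b ∈ CID_Dv (P * a), Lam b = ∑ b ∈ CID_Dv a, Lam b + Real.log (Ideal.absNorm P) := by
  classical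
  have hPa : P * a ≠ ⊥ := mul_ne_zero hP.ne_zero ha
  have hsub : CID_Dv a ⊆ CID_Dv (P * a) := by
    intro b hb
    rw [CID_mem ha] at hb
    rw [CID_mem hPa]
    exact hb.mul_left P
  obtain ⟨a', hv, hna⟩ := (FiniteMultiplicity.of_prime_left hP ha).exists_eq_pow_mul_and_not_dvd
  generalize multiplicity P a = v at hv
  rw [← Finset.sum_sdiff hsub, add_comm]
  congr 1
  rw [Finset.sum_eq_single (P ^ (v + 1))]
  · exact CID_Lam P hP v
  · intro b hb hne
    rw [Finset.mem_sdiff, CID_mem ha, CID_mem hPa] at hb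
    unfold Lam
    rw [if_neg]
    rintro ⟨Q, k, hQ, hk, rfl⟩
    by_cases hQP : Q = P
    · subst hQP
      apply hne
      congr 1
      have h1 : v < k := by
        by_contra h
        exact hb.2 (hv ▸ (pow_dvd_pow Q (not_lt.1 h)).mul_right a')
      have h2 : k ≤ v + 1 := by
        by_contra h
        have h3 : Q ^ (v + 2) ∣ Q ^ (v + 1) * a' := by
          refine (pow_dvd_pow Q (by omega : v + 2 ≤ k)).trans ?_
          have h4 := hb.1
          rw [hv, ← mul_assoc, ← pow_succ'] at h4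
          exact h4
        rw [pow_succ Q (v + 1)] at h3
        exact hna ((mul_dvd_mul_iff_left (pow_ne_zero _ hQ.ne_zero)).1 h3)
      omega
    · apply hb.2
      have hcop : IsCoprime (Q ^ k) P := by
        refine IsCoprime.pow_left ?_
        rw [Ideal.isCoprime_iff_sup_eq]
        have hQm : Q.IsMaximal := (Ideal.isPrime_of_prime hQ).isMaximal hQ.ne_zero
        have hPm : P.IsMaximal := (Ideal.isPrime_of_prime hP).isMaximal hP.ne_zero
        exact Ideal.IsMaximal.coprime_of_ne hQm hPm hQP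
      exact hcop.dvd_of_dvd_mul_left hb.1
  · intro h
    exfalso
    apply h
    rw [Finset.mem_sdiff, CID_mem ha, CID_mem hPa]
    refine ⟨?_, ?_⟩
    · rw [hv, ← mul_assoc, ← pow_succ']
      exact Dvd.intro _ rfl
    · rw [hv, pow_succ]
      intro h1
      exact hna ((mul_dvd_mul_iff_left (pow_ne_zero _ hP.ne_zero)).1 h1)

theorem CID_log (a : Ideal (𝓞 F)) : a ≠ ⊥ → ∑ b ∈ CID_Dv a, Lam b = Real.log (Ideal.absNorm a) := by
  refine UniqueFactorizationMonoid.induction_on_prime a ?_ ?_ ?_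
  · intro h
    exact absurd rfl h
  · intro x hx h0
    have hx1 : x = 1 := by
      rwa [Ideal.isUnit_iff, ← Ideal.one_eq_top] at hx
    subst hx1
    have h1 : ∑ b ∈ CID_Dv (1 : Ideal (𝓞 F)), Lam b = 0 := by
      refine Finset.sum_eq_zero fun b hb => ?_
      rw [CID_mem h0] at hb
      unfold Lam
      rw [if_neg]
      intro h2
      exact h2.not_isUnit (isUnit_of_dvd_one hb)
    rw [h1]
    simp
  · intro a p ha hp ih _
    rw [CID_step p a hp ha, ih ha, map_mul]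
    push_cast
    rw [Real.log_mul, add_comm]
    · exact_mod_cast fun h0 => hp.ne_zero (Ideal.absNorm_eq_zero_iff.1 h0)
    · exact_mod_cast fun h0 => ha (Ideal.absNorm_eq_zero_iff.1 h0)

end

theorem CID : CID_stmt := by
  intro F _ _ χ hχ n hn
  classical
  have hne : ∀ (m : ℕ) (b : Ideal (𝓞 F)), m ≠ 0 → b ∈ idl F m → b ≠ ⊥ := by
    intro m b hm hb h0
    rw [CID_idl, h0] at hb
    apply hm
    rw [← hb]
    exact Ideal.absNorm_bot
  have e1 : (Real.log n : ℂ) * cc χ n = ∑ a ∈ idl F n, ∑ b ∈ CID_Dv a, χ a * (Lam b : ℂ) := by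
    unfold cc
    rw [Finset.mul_sum]
    refine Finset.sum_congr rfl fun a ha => ?_
    rw [← Finset.mul_sum, ← Complex.ofReal_sum, CID_log a (hne n a hn ha), (CID_idl n a).1 ha, mul_comm]
  have e2 : ∑ d ∈ n.divisorsAntidiagonal, zz χ d.1 * cc χ d.2 =
      ∑ d ∈ n.divisorsAntidiagonal, ∑ b ∈ idl F d.1 ×ˢ idl F d.2, χ b.1 * (Lam b.1 : ℂ) * χ b.2 := by
    refine Finset.sum_congr rfl fun d _ => ?_
    unfold zz cc
    rw [Finset.sum_mul_sum, Finset.sum_product]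
  rw [e1, e2, Finset.sum_sigma', Finset.sum_sigma']
  symm
  refine Finset.sum_bij (fun x _ => (⟨x.2.1 * x.2.2, x.2.1⟩ : (_ : Ideal (𝓞 F)) × Ideal (𝓞 F))) ?_ ?_ ?_ ?_
  · rintro ⟨⟨d1, d2⟩, ⟨b, b'⟩⟩ hx
    rw [Finset.mem_sigma, Finset.mem_product, Nat.mem_divisorsAntidiagonal] at hx
    obtain ⟨⟨hd, -⟩, hb, hb'⟩ := hx
    simp only at hd hb hb'
    have h1 : b * b' ∈ idl F n := by
      rw [CID_idl, map_mul, (CID_idl _ _).1 hb, (CID_idl _ _).1 hb', hd]
    rw [Finset.mem_sigma]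
    exact ⟨h1, (CID_mem (hne n _ hn h1) _).2 (Dvd.intro _ rfl)⟩
  · rintro ⟨⟨d1, d2⟩, ⟨b, b'⟩⟩ hx ⟨⟨c1, c2⟩, ⟨y, y'⟩⟩ hy hxy
    rw [Finset.mem_sigma, Finset.mem_product, Nat.mem_divisorsAntidiagonal] at hx hy
    obtain ⟨⟨hd, -⟩, hb, hb'⟩ := hx
    obtain ⟨⟨hc, -⟩, hy1, hy'⟩ := hy
    simp only at hd hb hb' hc hy1 hy'
    simp only [Sigma.mk.injEq, heq_eq_eq] at hxy
    obtain ⟨h1, h2⟩ := hxy
    subst h2
    have hd1 : d1 ≠ 0 := by
      rintro rfl
      rw [zero_mul] at hd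
      exact hn hd.symm
    have h3 : b' = y' := mul_left_cancel₀ (hne d1 b hd1 hb) h1
    subst h3
    rw [CID_idl] at hb hb' hy1 hy'
    subst hb hb' hy1 hy'
    rfl
  · rintro ⟨a, b⟩ hx
    rw [Finset.mem_sigma] at hx
    obtain ⟨ha, hb⟩ := hx
    simp only at ha hb
    rw [CID_mem (hne n a hn ha)] at hb
    obtain ⟨b', rfl⟩ := hb
    refine ⟨⟨(Ideal.absNorm b, Ideal.absNorm b'), (b, b')⟩, ?_, rfl⟩
    rw [Finset.mem_sigma, Finset.mem_product, Nat.mem_divisorsAntidiagonal]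
    refine ⟨⟨?_, hn⟩, (CID_idl _ _).2 rfl, (CID_idl _ _).2 rfl⟩
    show Ideal.absNorm b * Ideal.absNorm b' = n
    rw [← map_mul]
    exact (CID_idl _ _).1 ha
  · rintro ⟨⟨d1, d2⟩, ⟨b, b'⟩⟩ _
    show χ b * (Lam b : ℂ) * χ b' = χ (b * b') * (Lam b : ℂ)
    rw [hχ.mul]
    ring

end Pool.Agent.CH
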