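import Pool.Agent.helper17.CH.SpecW

set_option autoImplicit false

namespace Pool.Agent.CH

open Finset ArithmeticFunction
open Pool.Agent.helper85.BVP (trunc beta Mr Zr vaughan)

/-- Dirichlet convolutions with a complex weight. -/
theorem VAU_conv (f h : ArithmeticFunction ℝ) (w : ℕ → ℂ) (X Y : ℕ) (hXY : X ≤ Y) :
    ∑ n ∈ Ioc 0 X, (((f * h) n : ℝ) : ℂ) * w n =
      ∑ p ∈ Ioc 0 Y ×ˢ Ioc 0 Y with p.1 * p.2 ≤ X,
        ((f p.1 : ℝ) : ℂ) * ((h p.2 : ℝ) : ℂ) * w (p.1 * p.2) := by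
  have h1 : ∀ n ∈ Ioc 0 X, (((f * h) n : ℝ) : ℂ) * w n =
      ∑ p ∈ Ioc 0 Y ×ˢ Ioc 0 Y with p.1 * p.2 = n,
        ((f p.1 : ℝ) : ℂ) * ((h p.2 : ℝ) : ℂ) * w (p.1 * p.2) := by
    intro n hn
    rw [mem_Ioc] at hn
    rw [mul_apply, Nat.divisorsAntidiagonal_eq_prod_filter_of_le hn.1.ne' (hn.2.trans hXY)]
    push_cast
    rw [sum_mul]
    refine sum_congr rfl fun p hp => ?_
    rw [(mem_filter.mp hp).2]
  rw [sum_congr rfl h1]
  simp_rw [sum_filter]
  rw [sum_comm]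
  refine sum_congr rfl fun p hp => ?_
  rw [mem_product, mem_Ioc, mem_Ioc] at hp
  by_cases hle : p.1 * p.2 ≤ X
  · rw [if_pos hle]
    rw [sum_eq_single (p.1 * p.2)]
    · rw [if_pos rfl]
    · intro n _ hne
      rw [if_neg (fun hh => hne hh.symm)]
    · intro hnot
      exact absurd (mem_Ioc.2 ⟨Nat.mul_pos hp.1.1 hp.2.1, hle⟩) hnot
  · rw [if_neg hle]
    refine sum_eq_zero fun n hn => ?_
    rw [if_neg]
    intro hh
    rw [mem_Ioc] at hn
    exact hle (hh ▸ hn.2)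

theorem VAU_pow (n : ℕ) : 64 * n ^ 3 < 2 ^ (64 * n) ∨ n = 0 := by
  rcases Nat.eq_zero_or_pos n with h | h
  · exact Or.inr h
  · left
    have h1 : n < 2 ^ n := Nat.lt_two_pow_self
    have h2 : n ^ 3 ≤ (2 ^ n) ^ 3 := Nat.pow_le_pow_left h1.le 3
    have h3 : 64 * n ^ 3 ≤ 2 ^ 6 * (2 ^ n) ^ 3 := by
      have : (64 : ℕ) = 2 ^ 6 := by norm_num
      rw [this]
      exact Nat.mul_le_mul_left _ h2
    refine lt_of_le_of_lt h3 ?_
    rw [← pow_mul, ← pow_add]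
    exact Nat.pow_lt_pow_right (by norm_num) (by omega)

/-- Passage to dyadic blocks. -/
theorem VAU_blocks (N : ℕ) (hN : 2 ^ 26 ≤ N) (f h g : ℕ → ℂ) (hf : ∀ a, 1 ≤ a → ‖f a‖ ≤ a)
    (hh : ∀ b, 1 ≤ b → ‖h b‖ ≤ b)
    (hg : ∀ j : ℕ, 1 ≤ j → (2 * j ≤ N ^ 3 ∨ 16 * N ^ 3 ≤ j) → ‖g j‖ ≤ 1 / (N : ℝ) ^ 10) :
    ‖∑ p ∈ Ioc 0 (256 * N ^ 3) ×ˢ Ioc 0 (256 * N ^ 3) with p.1 * p.2 ≤ 64 * N ^ 3,
        f p.1 * h p.2 * g (p.1 * p.2)‖ ≤
      1 / 4 + ∑ w ∈ PP N, ‖BLb (2 ^ w.1) (2 ^ w.2) f h g‖ := by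
  classical
  have hN0 : 0 < N := lt_of_lt_of_le (by positivity) hN
  set Y := 256 * N ^ 3 with hY
  set P := Ioc 0 Y ×ˢ Ioc 0 Y with hP
  set F : ℕ × ℕ → ℂ := fun p => f p.1 * h p.2 * g (p.1 * p.2) with hF
  set lg : ℕ × ℕ → ℕ × ℕ := fun p => (Nat.log 2 p.1, Nat.log 2 p.2) with hlg
  -- the sum over blocks
  have hB : ∑ w ∈ PP N, BLb (2 ^ w.1) (2 ^ w.2) f h g = ∑ p ∈ P with lg p ∈ PP N, F p := by
    rw [← sum_fiberwise_of_maps_to (s := P.filter fun p => lg p ∈ PP N) (t := PP N) (g := lg)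
      (fun p hp => (mem_filter.1 hp).2)]
    refine sum_congr rfl fun w hw => ?_
    unfold BLb
    rw [← sum_product']
    refine sum_congr ?_ fun p _ => rfl
    ext p
    rw [mem_filter, mem_filter, mem_product, mem_Ico, mem_Ico, hP, mem_product, mem_Ioc, mem_Ioc]
    have hw2 : 2 ^ (w.1 + w.2) ≤ 64 * N ^ 3 := by
      unfold PP at hw
      rw [mem_filter] at hw
      exact hw.2.2
    have hw1 : 2 ^ w.1 ≤ 64 * N ^ 3 :=
      le_trans (Nat.pow_le_pow_right (by norm_num) (Nat.le_add_right _ _)) hw2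
    have hw1' : 2 ^ w.2 ≤ 64 * N ^ 3 :=
      le_trans (Nat.pow_le_pow_right (by norm_num) (Nat.le_add_left _ _)) hw2
    constructor
    · rintro ⟨⟨h1, h2⟩, h3, h4⟩
      have hp1 : 0 < p.1 := lt_of_lt_of_le (by positivity) h1
      have hp2 : 0 < p.2 := lt_of_lt_of_le (by positivity) h3
      have e1 : Nat.log 2 p.1 = w.1 :=
        (Nat.log_eq_iff (Or.inr ⟨by norm_num, hp1.ne'⟩)).2 ⟨h1, by rw [pow_succ]; omega⟩
      have e2 : Nat.log 2 p.2 = w.2 :=
        (Nat.log_eq_iff (Or.inr ⟨by norm_num, hp2.ne'⟩)).2 ⟨h3, by rw [pow_succ]; omega⟩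
      have e : lg p = w := Prod.ext e1 e2
      refine ⟨⟨⟨⟨hp1, ?_⟩, hp2, ?_⟩, ?_⟩, e⟩
      · rw [hY]; omega
      · rw [hY]; omega
      · rw [e]; exact hw
    · rintro ⟨⟨⟨⟨h1, h2⟩, h3, h4⟩, h5⟩, e⟩
      have e1 : Nat.log 2 p.1 = w.1 := by rw [← e]
      have e2 : Nat.log 2 p.2 = w.2 := by rw [← e]
      have i1 := (Nat.log_eq_iff (Or.inr ⟨by norm_num, h1.ne'⟩)).1 e1
      have i2 := (Nat.log_eq_iff (Or.inr ⟨by norm_num, h3.ne'⟩)).1 e2
      rw [pow_succ] at i1 i2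
      exact ⟨⟨i1.1, by omega⟩, i2.1, by omega⟩
  -- the difference
  have hNr : (0 : ℝ) < N := by exact_mod_cast hN0
  have hterm : ∀ p ∈ P, ‖(if p.1 * p.2 ≤ 64 * N ^ 3 then F p else 0) -
      (if lg p ∈ PP N then F p else 0)‖ ≤ 256 * (N : ℝ) ^ 3 * (1 / (N : ℝ) ^ 10) := by
    intro p hp
    rw [hP, mem_product, mem_Ioc, mem_Ioc] at hp
    have hp1 : 0 < p.1 := hp.1.1
    have hp2 : 0 < p.2 := hp.2.1
    have l1 : 2 ^ Nat.log 2 p.1 ≤ p.1 := Nat.pow_log_le_self 2 hp1.ne'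
    have l2 : 2 ^ Nat.log 2 p.2 ≤ p.2 := Nat.pow_log_le_self 2 hp2.ne'
    have u1 : p.1 < 2 ^ (Nat.log 2 p.1 + 1) := Nat.lt_pow_succ_log_self (by norm_num) _
    have u2 : p.2 < 2 ^ (Nat.log 2 p.2 + 1) := Nat.lt_pow_succ_log_self (by norm_num) _
    have lo : 2 ^ (Nat.log 2 p.1 + Nat.log 2 p.2) ≤ p.1 * p.2 := by
      rw [pow_add]; exact Nat.mul_le_mul l1 l2
    have up : p.1 * p.2 < 4 * 2 ^ (Nat.log 2 p.1 + Nat.log 2 p.2) := by
      have := Nat.mul_lt_mul'' u1 u2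
      rw [pow_succ, pow_succ] at this
      rw [pow_add]
      calc p.1 * p.2 < 2 ^ Nat.log 2 p.1 * 2 * (2 ^ Nat.log 2 p.2 * 2) := this
        _ = _ := by ring
    have hnn : (0 : ℝ) ≤ 256 * (N : ℝ) ^ 3 * (1 / (N : ℝ) ^ 10) := by positivity
    have hFb : p.1 * p.2 ≤ 256 * N ^ 3 → (2 * (p.1 * p.2) ≤ N ^ 3 ∨ 16 * N ^ 3 ≤ p.1 * p.2) →
        ‖F p‖ ≤ 256 * (N : ℝ) ^ 3 * (1 / (N : ℝ) ^ 10) := by
      intro h1 h2
      rw [hF]
      show ‖f p.1 * h p.2 * g (p.1 * p.2)‖ ≤ _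
      rw [norm_mul, norm_mul]
      have h3 : ‖f p.1‖ * ‖h p.2‖ ≤ 256 * (N : ℝ) ^ 3 := by
        calc ‖f p.1‖ * ‖h p.2‖ ≤ (p.1 : ℝ) * p.2 :=
              mul_le_mul (hf _ hp1) (hh _ hp2) (norm_nonneg _) (by positivity)
          _ ≤ 256 * (N : ℝ) ^ 3 := by exact_mod_cast h1
      exact mul_le_mul h3 (hg _ (Nat.mul_pos hp1 hp2) h2) (norm_nonneg _) (by positivity)
    have hmem : lg p ∈ PP N ↔ (Nat.log 2 p.1 < 64 * N ∧ Nat.log 2 p.2 < 64 * N) ∧
        N ^ 3 ≤ 64 * 2 ^ (Nat.log 2 p.1 + Nat.log 2 p.2) ∧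
        2 ^ (Nat.log 2 p.1 + Nat.log 2 p.2) ≤ 64 * N ^ 3 := by
      unfold PP
      rw [mem_filter, mem_product, mem_range, mem_range]
    by_cases c1 : p.1 * p.2 ≤ 64 * N ^ 3
    · by_cases c2 : lg p ∈ PP N
      · rw [if_pos c1, if_pos c2, sub_self, norm_zero]; exact hnn
      · rw [if_pos c1, if_neg c2, sub_zero]
        refine hFb (by omega) (Or.inl ?_)
        rw [hmem] at c2
        by_contra hcon
        apply c2
        have hpw := (VAU_pow N).resolve_right hN0.ne'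
        have hlt1 : Nat.log 2 p.1 < 64 * N := by
          by_contra hge
          have := Nat.pow_le_pow_right (n := 2) (by norm_num) (not_lt.1 hge)
          have h5 : p.1 ≤ p.1 * p.2 := Nat.le_mul_of_pos_right _ hp2
          omega
        have hlt2 : Nat.log 2 p.2 < 64 * N := by
          by_contra hge
          have := Nat.pow_le_pow_right (n := 2) (by norm_num) (not_lt.1 hge)
          have h5 : p.2 ≤ p.1 * p.2 := Nat.le_mul_of_pos_left _ hp1
          omega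
        exact ⟨⟨hlt1, hlt2⟩, by omega, by omega⟩
    · by_cases c2 : lg p ∈ PP N
      · rw [if_neg c1, if_pos c2, zero_sub, norm_neg]
        rw [hmem] at c2
        exact hFb (by omega) (Or.inr (by omega))
      · rw [if_neg c1, if_neg c2, sub_self, norm_zero]; exact hnn
  have hdiff : ‖∑ p ∈ P with p.1 * p.2 ≤ 64 * N ^ 3, F p - ∑ p ∈ P with lg p ∈ PP N, F p‖ ≤ 1 / 4 := by
    rw [sum_filter, sum_filter, ← sum_sub_distrib]
    refine le_trans (norm_sum_le_of_le _ hterm) ?_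
    rw [sum_const, nsmul_eq_mul, hP, card_product, Nat.card_Ioc, Nat.sub_zero, hY]
    push_cast
    have hN' : (2 : ℝ) ^ 26 ≤ N := by exact_mod_cast hN
    have e : 256 * (N : ℝ) ^ 3 * (256 * (N : ℝ) ^ 3) * (256 * (N : ℝ) ^ 3 * (1 / (N : ℝ) ^ 10)) =
        2 ^ 24 / N := by
      field_simp
      norm_num
    rw [e, div_le_iff₀ hNr]
    linarith
  calc ‖∑ p ∈ P with p.1 * p.2 ≤ 64 * N ^ 3, F p‖
      = ‖(∑ p ∈ P with p.1 * p.2 ≤ 64 * N ^ 3, F p - ∑ p ∈ P with lg p ∈ PP N, F p) +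
          ∑ p ∈ P with lg p ∈ PP N, F p‖ := by rw [sub_add_cancel]
    _ ≤ 1 / 4 + ‖∑ p ∈ P with lg p ∈ PP N, F p‖ := (norm_add_le _ _).trans (by gcongr)
    _ = 1 / 4 + ‖∑ w ∈ PP N, BLb (2 ^ w.1) (2 ^ w.2) f h g‖ := by rw [hB]
    _ ≤ 1 / 4 + ∑ w ∈ PP N, ‖BLb (2 ^ w.1) (2 ^ w.2) f h g‖ := by
        gcongr
        exact norm_sum_le _ _

theorem VAU_eU_le (U d : ℕ) (hd : 1 ≤ d) : |eU U d| ≤ d := by
  unfold eU
  rw [mul_apply]
  refine le_trans (abs_sum_le_sum_abs _ _) ?_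
  have h1 : ∀ p ∈ d.divisorsAntidiagonal, |trunc Mr U p.1 * trunc vonMangoldt U p.2| ≤
      vonMangoldt p.2 := by
    intro p _
    rw [abs_mul]
    have ha : |trunc Mr U p.1| ≤ 1 := by
      rw [Pool.Agent.helper85.BVP.trunc_apply]
      split_ifs
      · have := abs_moebius_le_one (n := p.1)
        have e : Mr p.1 = ((moebius p.1 : ℤ) : ℝ) := rfl
        rw [e]
        exact_mod_cast this
      · simp
    have hb : |trunc vonMangoldt U p.2| ≤ vonMangoldt p.2 := by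
      rw [Pool.Agent.helper85.BVP.trunc_apply]
      split_ifs
      · rw [abs_of_nonneg vonMangoldt_nonneg]
      · rw [abs_zero]; exact vonMangoldt_nonneg
    calc |trunc Mr U p.1| * |trunc vonMangoldt U p.2| ≤ 1 * vonMangoldt p.2 :=
          mul_le_mul ha hb (abs_nonneg _) zero_le_one
      _ = vonMangoldt p.2 := one_mul _
  refine le_trans (sum_le_sum h1) ?_
  rw [Nat.sum_divisorsAntidiagonal' (f := fun _ y => vonMangoldt y), vonMangoldt_sum]
  have : (0 : ℝ) < d := by exact_mod_cast hd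
  linarith [Real.log_le_sub_one_of_pos this]

theorem VAU_beta_le (U k : ℕ) : |beta U k| ≤ k := by
  unfold beta
  rw [mul_apply]
  refine le_trans (abs_sum_le_sum_abs _ _) ?_
  have h1 : ∀ p ∈ k.divisorsAntidiagonal, |(Mr - trunc Mr U) p.1 * Zr p.2| ≤ 1 := by
    intro p _
    rw [abs_mul]
    have ha : |(Mr - trunc Mr U) p.1| ≤ 1 := by
      have e : (Mr - trunc Mr U) p.1 = Mr p.1 - trunc Mr U p.1 := rfl
      rw [e, Pool.Agent.helper85.BVP.trunc_apply]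
      have := abs_moebius_le_one (n := p.1)
      have e2 : Mr p.1 = ((moebius p.1 : ℤ) : ℝ) := rfl
      split_ifs
      · simp
      · rw [sub_zero, e2]
        exact_mod_cast this
    have hb : |Zr p.2| ≤ 1 := by
      have e : Zr p.2 = ((zeta p.2 : ℕ) : ℝ) := rfl
      rw [e, zeta_apply]
      split_ifs <;> simp
    calc |(Mr - trunc Mr U) p.1| * |Zr p.2| ≤ 1 * 1 :=
          mul_le_mul ha hb (abs_nonneg _) zero_le_one
      _ = 1 := one_mul _
  refine le_trans (sum_le_sum h1) ?_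
  rw [sum_const, nsmul_eq_mul, mul_one]
  have h2 : k.divisorsAntidiagonal.card = k.divisors.card := by
    rw [← Nat.map_div_right_divisors, card_map]
  rw [h2]
  exact_mod_cast Nat.card_divisors_le_self k

theorem VAU : VAU_stmt := by
  refine ⟨2 ^ 26, ?_⟩
  intro N hN U q χ g hU hUN hg2 hgs
  have hN0 : 0 < N := lt_of_lt_of_le (by positivity) hN
  have hNr : (0 : ℝ) < N := by exact_mod_cast hN0
  set X := 64 * N ^ 3 with hX
  set Y := 256 * N ^ 3 with hY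
  have hXY : X ≤ Y := by omega
  have hχ : ∀ n : ℕ, ‖χ n‖ ≤ 1 := fun n => DirichletCharacter.norm_le_one χ _
  set w : ℕ → ℂ := fun n => χ n * g n with hw
  have hdec : ∀ n : ℕ, vonMangoldt n = trunc vonMangoldt U n + (trunc Mr U * ArithmeticFunction.log) n
      - (eU U * Zr) n + ((vonMangoldt - trunc vonMangoldt U) * beta U) n := by
    intro n
    have h := DFunLike.congr_fun (vaughan U U) n
    rw [← mul_assoc] at h
    exact h
  have hS : ∑ j ∈ Ioc 0 X, (vonMangoldt j : ℂ) * χ j * g j =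
      ∑ j ∈ Ioc 0 X, ((trunc vonMangoldt U j : ℝ) : ℂ) * w j +
      ∑ j ∈ Ioc 0 X, (((trunc Mr U * ArithmeticFunction.log) j : ℝ) : ℂ) * w j -
      ∑ j ∈ Ioc 0 X, (((eU U * Zr) j : ℝ) : ℂ) * w j +
      ∑ j ∈ Ioc 0 X, ((((vonMangoldt - trunc vonMangoldt U) * beta U) j : ℝ) : ℂ) * w j := by
    rw [← sum_add_distrib, ← sum_sub_distrib, ← sum_add_distrib]
    refine sum_congr rfl fun j _ => ?_
    rw [hdec j, hw]
    push_cast
    ring
  rw [hS, VAU_conv _ _ w X Y hXY, VAU_conv _ _ w X Y hXY, VAU_conv _ _ w X Y hXY]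
  -- the four parts
  have p0 : ‖∑ j ∈ Ioc 0 X, ((trunc vonMangoldt U j : ℝ) : ℂ) * w j‖ ≤ 1 / 4 := by
    have hb : ∀ j ∈ Ioc 0 X, ‖((trunc vonMangoldt U j : ℝ) : ℂ) * w j‖ ≤
        (N : ℝ) * (1 / (N : ℝ) ^ 10) := by
      intro j hj
      rw [mem_Ioc] at hj
      rw [Pool.Agent.helper85.BVP.trunc_apply]
      by_cases hjU : j ≤ U
      · rw [if_pos hjU, norm_mul, Complex.norm_real, Real.norm_of_nonneg vonMangoldt_nonneg, hw,
          norm_mul]
        have hUN' : U ≤ N := le_trans (Nat.le_self_pow (by norm_num) U) hUN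
        have hj1 : vonMangoldt j ≤ (N : ℝ) := by
          refine le_trans vonMangoldt_le_log ?_
          have : (0 : ℝ) < j := by exact_mod_cast hj.1
          have h2 : (j : ℝ) ≤ N := by exact_mod_cast hjU.trans hUN'
          linarith [Real.log_le_sub_one_of_pos this]
        have hsm : 2 * j ≤ N ^ 3 := by
          have h3 : j ≤ N := hjU.trans hUN'
          have h4 : 2 ≤ N ^ 2 := by
            have : 2 ≤ N := le_trans (by norm_num) hN
            nlinarith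
          calc 2 * j ≤ N ^ 2 * N := Nat.mul_le_mul h4 h3
            _ = N ^ 3 := by ring
        have hgj := hgs j hj.1 (Or.inl hsm)
        calc vonMangoldt j * (‖χ j‖ * ‖g j‖) ≤ N * (1 * (1 / (N : ℝ) ^ 10)) := by
              apply mul_le_mul hj1 _ (by positivity) hNr.le
              exact mul_le_mul (hχ j) hgj (norm_nonneg _) zero_le_one
          _ = _ := by rw [one_mul]
      · rw [if_neg hjU, Complex.ofReal_zero, zero_mul, norm_zero]
        positivity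
    refine le_trans (norm_sum_le_of_le _ hb) ?_
    rw [sum_const, nsmul_eq_mul, Nat.card_Ioc, Nat.sub_zero, hX]
    push_cast
    have hN' : (2 : ℝ) ^ 26 ≤ N := by exact_mod_cast hN
    have e : 64 * (N : ℝ) ^ 3 * (N * (1 / (N : ℝ) ^ 10)) = 64 / (N : ℝ) ^ 6 := by
      field_simp
    rw [e, div_le_iff₀ (by positivity)]
    have : (1 : ℝ) ≤ (N : ℝ) ^ 5 := one_le_pow₀ (by linarith)
    calc (64 : ℝ) ≤ 1 / 4 * N := by linarith
      _ ≤ 1 / 4 * (N : ℝ) ^ 6 := by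
        have : (N : ℝ) ^ 6 = N * (N : ℝ) ^ 5 := by ring
        rw [this]
        nlinarith
  have key : ∀ (f h : ArithmeticFunction ℝ) (f' h' : ℕ → ℂ),
      (∀ a : ℕ, 1 ≤ a → ((f a : ℝ) : ℂ) * χ a = f' a) → (∀ b : ℕ, 1 ≤ b → ((h b : ℝ) : ℂ) * χ b = h' b) →
      (∀ a : ℕ, 1 ≤ a → |f a| ≤ a) → (∀ b : ℕ, 1 ≤ b → |h b| ≤ b) →
      ‖∑ p ∈ Ioc 0 Y ×ˢ Ioc 0 Y with p.1 * p.2 ≤ X,
        ((f p.1 : ℝ) : ℂ) * ((h p.2 : ℝ) : ℂ) * w (p.1 * p.2)‖ ≤
      1 / 4 + ∑ v ∈ PP N, ‖BLb (2 ^ v.1) (2 ^ v.2) f' h' g‖ := by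
    intro f h f' h' hf' hh' hf hh
    have e : ∑ p ∈ Ioc 0 Y ×ˢ Ioc 0 Y with p.1 * p.2 ≤ X,
        ((f p.1 : ℝ) : ℂ) * ((h p.2 : ℝ) : ℂ) * w (p.1 * p.2) =
        ∑ p ∈ Ioc 0 Y ×ˢ Ioc 0 Y with p.1 * p.2 ≤ X, f' p.1 * h' p.2 * g (p.1 * p.2) := by
      refine sum_congr rfl fun p hp => ?_
      rw [mem_filter, mem_product, mem_Ioc, mem_Ioc] at hp
      rw [← hf' _ hp.1.1.1, ← hh' _ hp.1.2.1, hw]
      show _ * _ * (χ ((p.1 * p.2 : ℕ) : ZMod q) * g (p.1 * p.2)) = _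
      rw [Nat.cast_mul, map_mul]
      ring
    rw [e]
    have hfb : ∀ a, 1 ≤ a → ‖f' a‖ ≤ a := by
      intro a ha
      rw [← hf' a ha, norm_mul, Complex.norm_real, Real.norm_eq_abs]
      calc |f a| * ‖χ a‖ ≤ a * 1 := mul_le_mul (hf a ha) (hχ a) (norm_nonneg _) (by positivity)
        _ = a := mul_one _
    have hhb : ∀ b, 1 ≤ b → ‖h' b‖ ≤ b := by
      intro b hb
      rw [← hh' b hb, norm_mul, Complex.norm_real, Real.norm_eq_abs]
      calc |h b| * ‖χ b‖ ≤ b * 1 := mul_le_mul (hh b hb) (hχ b) (norm_nonneg _) (by positivity)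
        _ = b := mul_one _
    exact VAU_blocks N hN f' h' g hfb hhb hgs
  have logle : ∀ b : ℕ, 1 ≤ b → |Real.log b| ≤ b := by
    intro b hb
    have hb1 : (1 : ℝ) ≤ b := by exact_mod_cast hb
    rw [abs_of_nonneg (Real.log_nonneg hb1)]
    linarith [Real.log_le_sub_one_of_pos (lt_of_lt_of_le one_pos hb1)]
  have p1 := key (trunc Mr U) ArithmeticFunction.log
    (fun d => if d ≤ U then ((moebius d : ℤ) : ℂ) * χ d else 0)
    (fun k => χ k * (Real.log k : ℂ) ^ 1) (by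
      intro a _
      rw [Pool.Agent.helper85.BVP.trunc_apply]
      split_ifs
      · have e : Mr a = ((moebius a : ℤ) : ℝ) := rfl
        rw [e, Complex.ofReal_intCast]
      · rw [Complex.ofReal_zero, zero_mul]) (by
      intro b _
      rw [log_apply, pow_one, mul_comm]) (by
      intro a ha
      have ha1 : (1 : ℝ) ≤ a := by exact_mod_cast ha
      refine le_trans ?_ ha1
      rw [Pool.Agent.helper85.BVP.trunc_apply]
      split_ifs
      · have := abs_moebius_le_one (n := a)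
        have e : Mr a = ((moebius a : ℤ) : ℝ) := rfl
        rw [e]
        exact_mod_cast this
      · simp) (by
      intro b hb
      rw [log_apply]
      exact logle b hb)
  have p2 := key (eU U) Zr (fun d => ((eU U d : ℝ) : ℂ) * χ d)
    (fun k => χ k * (Real.log k : ℂ) ^ 0) (fun a _ => rfl) (by
      intro b hb
      have e : Zr b = ((zeta b : ℕ) : ℝ) := rfl
      rw [e, zeta_apply, if_neg (by omega), Nat.cast_one, Complex.ofReal_one, one_mul, pow_zero,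
        mul_one]) (fun a ha => VAU_eU_le U a ha) (by
      intro b hb
      have hb1 : (1 : ℝ) ≤ b := by exact_mod_cast hb
      have e : Zr b = ((zeta b : ℕ) : ℝ) := rfl
      rw [e, zeta_apply, if_neg (by omega), Nat.cast_one, abs_one]
      exact hb1)
  have p3 := key (vonMangoldt - trunc vonMangoldt U) (beta U)
    (fun m => if U < m then (vonMangoldt m : ℂ) * χ m else 0)
    (fun k => ((beta U k : ℝ) : ℂ) * χ k) (by
      intro a _
      have e : (vonMangoldt - trunc vonMangoldt U) a = vonMangoldt a - trunc vonMangoldt U a := rfl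
      rw [e, Pool.Agent.helper85.BVP.trunc_apply]
      by_cases ha : a ≤ U
      · rw [if_pos ha, if_neg (not_lt.2 ha), sub_self, Complex.ofReal_zero, zero_mul]
      · rw [if_neg ha, if_pos (not_le.1 ha), sub_zero]) (fun b _ => rfl) (by
      intro a ha
      have e : (vonMangoldt - trunc vonMangoldt U) a = vonMangoldt a - trunc vonMangoldt U a := rfl
      rw [e, Pool.Agent.helper85.BVP.trunc_apply]
      by_cases haU : a ≤ U
      · rw [if_pos haU, sub_self, abs_zero]; positivity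
      · rw [if_neg haU, sub_zero, abs_of_nonneg vonMangoldt_nonneg]
        exact vonMangoldt_le_log.trans ((le_abs_self _).trans (logle a ha))) (fun b _ => VAU_beta_le U b)
  rw [sum_add_distrib, sum_add_distrib]
  refine le_trans (norm_add_le _ _) ?_
  refine le_trans (add_le_add (norm_sub_le _ _) le_rfl) ?_
  refine le_trans (add_le_add (add_le_add (norm_add_le _ _) le_rfl) le_rfl) ?_
  linarith

end Pool.Agent.CH
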